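import Mathlib
import Pool.Agent.Helper895.AltRad

set_option autoImplicit false

namespace Pool.Agent.Results.MP_643ad6_al.RadicalThreeGenerators

/-- `MonoidAlgebra ℤ (FreeMagma X)` is the free nonassociative ring (without unit) on `X`. This
relation lists the alternative laws `(a a) b = a (a b)` and `(b a) a = b (a a)` in it. -/
def AltRel (X : Type) (p q : MonoidAlgebra ℤ (FreeMagma X)) : Prop :=
  ∃ a b : MonoidAlgebra ℤ (FreeMagma X),
    (p = (a * a) * b ∧ q = a * (a * b)) ∨ (p = (b * a) * a ∧ q = b * (a * a))

/-- The free alternative ring on `X`: the quotient of the free nonassociative ring by the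
congruence generated by the alternative laws. -/
abbrev AltFree (X : Type) := (ringConGen (AltRel X)).Quotient

/-- `f` is quasi-regular: `f + g = f g = g f` for some `g`. -/
def QuasiRegular {A : Type} [NonUnitalNonAssocRing A] (f : A) : Prop :=
  ∃ g : A, f + g = f * g ∧ f + g = g * f

/-- The Zhevlakov radical: the sum of all two-sided ideals consisting of quasi-regular elements. -/
def zhevlakovRadical (A : Type) [NonUnitalNonAssocRing A] : TwoSidedIdeal A :=
  sSup {I : TwoSidedIdeal A | ∀ f ∈ I, QuasiRegular f}

/-- In the free alternative ring on three generators zero is the only quasi-regular element; in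
particular its Zhevlakov radical is zero. -/
theorem result : (∀ f : AltFree (Fin 3), QuasiRegular f → f = 0) ∧
    zhevlakovRadical (AltFree (Fin 3)) = ⊥ := by
  have h1 : ∀ f : AltFree (Fin 3), QuasiRegular f → f = 0 := by
    rintro f ⟨g, hg, -⟩
    exact Helper895.Alt.quasi_zero Helper895.Alt.isAltCon_gen hg
  refine ⟨h1, ?_⟩
  rw [zhevlakovRadical, eq_bot_iff]
  apply sSup_le
  intro I hI z hz
  rw [h1 z (hI z hz)]
  exact TwoSidedIdeal.zero_mem _

end Pool.Agent.Results.MP_643ad6_al.RadicalThreeGenerators
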